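import Pool.Agent.Helper84.FP.Goals
import Pool.Agent.Helper91.FP.Cycle

/-!
Project FQ (MP_43a2f8_nt), packet SIZ.
-/

set_option autoImplicit false

namespace Pool.Agent.Helper88.FQ.SIZ

open Finset Pool.Agent.Helper91.FP Pool.Agent.Helper84.FP

theorem two_le {n : ℕ} (hn : 0 < n) (h : a n = n) : 2 ≤ n.primeFactors.card := by
  by_contra hlt
  have hc : n.primeFactors.card = 0 ∨ n.primeFactors.card = 1 := by omega
  rcases hc with h0 | h1
  · rw [card_eq_zero, Nat.primeFactors_eq_empty] at h0
    rcases h0 with h0 | h0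
    · omega
    · rw [h0] at h
      simp [a] at h
  · obtain ⟨p, hp⟩ := card_eq_one.1 h1
    have hpm : p ∈ n.primeFactors := by rw [hp]; exact mem_singleton_self p
    have h3 := eq_pow hn.ne' hp
    rw [h3] at h
    exact not_pow (Nat.prime_of_mem_primeFactors hpm) h

theorem lt_two {n p : ℕ} (h : a n = n) (hp : p ∈ n.primeFactors) :
    n.divisors.card < 2 * p := by
  have hn : 0 < n := Nat.pos_of_ne_zero (Nat.mem_primeFactors.1 hp).2.2
  have hpp := Nat.prime_of_mem_primeFactors hp
  have h1 := size_all h hp
  obtain ⟨m, h2, h3, h4⟩ := decomp hn hpp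
  rw [← h4] at h1
  have hk := factorization_pos hp
  have hc : Nat.Coprime (p ^ n.factorization p) m :=
    Nat.Coprime.pow_left _ ((Nat.Prime.coprime_iff_not_dvd hpp).2 h3)
  have h5 : n.divisors.card = (n.factorization p + 1) * m.divisors.card := by
    conv_lhs => rw [h2]
    rw [card_mul hc, card_div_pow hpp]
  have h6 : m.divisors.card ≤ n.factorization p * m.divisors.card :=
    Nat.le_mul_of_pos_left _ hk
  rw [h5, add_mul, one_mul]
  omega

theorem t : S_SIZ := by
  intro n hn h
  have h2 := two_le hn h
  have hne : n.primeFactors.Nonempty := card_pos.1 (by omega)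
  have hT : ∀ p ∈ n.primeFactors, n.divisors.card < 2 * p := fun p hp => lt_two h hp
  have hTpos : 0 < n.divisors.card := card_pos.2 (Nat.nonempty_divisors.2 hn.ne')
  refine ⟨h2, hT, ?_, ?_, ?_⟩
  · rw [card_prod hn.ne', ← prod_const]
    exact prod_le_prod' fun p hp => by have := factorization_pos hp; omega
  · rw [card_prod hn.ne', Om, ← prod_pow_eq_pow_sum]
    exact prod_le_prod' fun p _ => Nat.lt_two_pow_self
  · have h3 : n = ∏ p ∈ n.primeFactors, p ^ n.factorization p := by
      conv_lhs => rw [← Nat.prod_factorization_pow_eq_self hn.ne']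
      rw [Finsupp.prod, Nat.support_factorization]
    have h4 : 2 ^ Om n * n = ∏ p ∈ n.primeFactors, (2 * p) ^ n.factorization p := by
      calc 2 ^ Om n * n = (∏ p ∈ n.primeFactors, 2 ^ n.factorization p) *
            ∏ p ∈ n.primeFactors, p ^ n.factorization p := by
            rw [← h3, Om, prod_pow_eq_pow_sum]
        _ = _ := by
            rw [← prod_mul_distrib]
            exact prod_congr rfl fun p _ => (mul_pow _ _ _).symm
    rw [h4, Om, ← prod_pow_eq_pow_sum]
    refine prod_lt_prod_of_nonempty (fun p _ => pow_pos hTpos _) (fun p hp => ?_) hne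
    exact Nat.pow_lt_pow_left (hT p hp) (by have := factorization_pos hp; omega)

end Pool.Agent.Helper88.FQ.SIZ
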